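import Pool.Agent.Lib.MP_7f190d_al.H3.Rot

/-!
# MP_7f190d_al, module RT, part 3: generation, and the rotation theorem

Author: helper3.
-/

set_option autoImplicit false

namespace Pool.Agent.Lib.MP_7f190d_al.H3

variable {G V J : Type} [Group G] [MulAction G V] [MulAction G J] {M : GMet V}
  {apex : J → V} {rot : J → G} {ang : J → V → V → ℕ} {l θ : ℕ}

open Classical in
/-- The distances from `x` of the apexes which separate `x` and `w`. -/
noncomputable def spd (M : GMet V) (apex : J → V) (x w : V) : Finset ℕ :=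
  (Finset.range (M.d x w)).filter fun m => ∃ i, M.Sep x (apex i) w ∧ M.d x (apex i) = m

open Classical in
/-- The distances from `x` of the bad apexes which separate `x` and `w`. -/
noncomputable def bad (M : GMet V) (apex : J → V) (rot : J → G) (ang : J → V → V → ℕ)
    (x w : V) : Finset ℕ :=
  (Finset.range (M.d x w)).filter fun m =>
    ∃ i, M.Sep x (apex i) w ∧ M.d x (apex i) = m ∧ Om apex rot ang x i w

theorem mem_spd {x w : V} {m : ℕ} : m ∈ spd M apex x w ↔
    m < M.d x w ∧ ∃ i, M.Sep x (apex i) w ∧ M.d x (apex i) = m := by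
  classical
  unfold spd
  rw [Finset.mem_filter, Finset.mem_range]

theorem mem_bad {x w : V} {m : ℕ} : m ∈ bad M apex rot ang x w ↔
    m < M.d x w ∧ ∃ i, M.Sep x (apex i) w ∧ M.d x (apex i) = m ∧ Om apex rot ang x i w := by
  classical
  unfold bad
  rw [Finset.mem_filter, Finset.mem_range]

section

variable (R : RotSys G V J M apex rot ang l θ)

include R

/-- The lift map `φ` of the blueprint, for apexes beyond `v`. -/
theorem far {x : V} {i i' j : J} {k : ℤ} (h1 : M.Sep x (apex i) (apex j))
    (h2 : M.Btw x (apex i) (rot i ^ k • apex j))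
    (h3 : M.Sep x (apex i') (rot i ^ k • apex j)) (h4 : M.d x (apex i) ≤ M.d x (apex i')) :
    M.Sep x (apex (rot i ^ (-k) • i')) (apex j) ∧
      M.d x (apex (rot i ^ (-k) • i')) = M.d x (apex i') ∧
      M.Sep (apex i) (apex (rot i ^ (-k) • i')) (apex j) := by
  obtain ⟨a1, a2⟩ := sep_left h3 h2 h4
  have a3 := sep_smul R.iso (rot i ^ (-k)) a1
  rw [fixv R, smul_smul, ← zpow_add, neg_add_cancel, zpow_zero, one_smul, R.eqv] at a3
  obtain ⟨a4, a5⟩ := sep_trans h1 a3
  refine ⟨a4, ?_, a3⟩
  have e : M.d (apex i) (apex (rot i ^ (-k) • i')) = M.d (apex i) (apex i') := by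
    rw [← R.eqv]
    conv_lhs => rw [← fixv R i (-k)]
    exact R.iso _ _ _
  unfold GMet.Btw at a2 a5
  omega

theorem spd_sub {x : V} {i j : J} {k : ℤ} (h1 : M.Sep x (apex i) (apex j))
    (h2 : M.Btw x (apex i) (rot i ^ k • apex j))
    (h5 : M.d x (rot i ^ k • apex j) = M.d x (apex j)) :
    spd M apex x (rot i ^ k • apex j) ⊆ spd M apex x (apex j) := by
  intro m hm
  rw [mem_spd] at hm ⊢
  obtain ⟨hm1, i', hi', hd⟩ := hm
  refine ⟨by omega, ?_⟩
  rcases le_total (M.d x (apex i')) (M.d x (apex i)) with hc | hc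
  · obtain ⟨b1, b2⟩ := sep_right hi' h2 hc
    exact ⟨i', sep_trans' b1 h1, hd⟩
  · obtain ⟨b1, b2, b3⟩ := far R h1 h2 hi' hc
    exact ⟨_, b1, by rw [b2, hd]⟩

theorem bad_sub {x : V} (hx : ∀ j, x ≠ apex j) {i j : J} {k : ℤ}
    (hij : i ≠ j) (h1 : M.Sep x (apex i) (apex j))
    (h2 : M.Sep x (apex i) (rot i ^ k • apex j))
    (h5 : M.d x (rot i ^ k • apex j) = M.d x (apex j))
    (hd : Dl apex rot ang x i (rot i ^ k • apex j))
    (ho : Om apex rot ang x i (apex j)) :
    bad M apex rot ang x (rot i ^ k • apex j) ⊂ bad M apex rot ang x (apex j) := by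
  have hji : apex j ≠ apex i := fun h => hij (R.inj h).symm
  have hji' : rot i ^ k • apex j ≠ apex i := ne_smul R hji k
  rw [Finset.ssubset_iff_of_subset]
  · refine ⟨M.d x (apex i), ?_, ?_⟩
    · rw [mem_bad]
      refine ⟨?_, i, h1, rfl, ho⟩
      have := h1.1
      unfold GMet.Btw at this
      have h0 : M.d (apex i) (apex j) ≠ 0 := fun h => hji (M.eq0 _ _ h).symm
      omega
    · rw [mem_bad]
      rintro ⟨_, i', hi', hdist, hom⟩
      have : apex i = apex i' := hi'.2 _ h2.1 hdist.symm
      have : i' = i := (R.inj this).symm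
      subst this
      exact hom.2 hd
  · intro m hm
    rw [mem_bad] at hm ⊢
    obtain ⟨hm1, i', hi', hdist, hom⟩ := hm
    have hii : i' ≠ i := by
      rintro rfl
      exact hom.2 hd
    have hvv : apex i ≠ apex i' := fun h => hii (R.inj h).symm
    refine ⟨by omega, ?_⟩
    rcases le_total (M.d x (apex i')) (M.d x (apex i)) with hc | hc
    · -- `i'` before `i`
      obtain ⟨b1, b2⟩ := sep_right hi' h2.1 hc
      have s1 : M.Sep x (apex i') (apex j) := sep_trans' b1 h1
      refine ⟨i', s1, hdist, ?_⟩
      have s2 : M.Sep (apex i') (apex i) (apex j) := (sep_left h1 s1.1 hc).1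
      have s3 : M.Sep (apex i') (apex i) (rot i ^ k • apex j) := (sep_left h2 hi'.1 hc).1
      have hne : apex j ≠ apex i' := by
        intro h
        have := s2.1
        rw [← h] at this
        unfold GMet.Btw at this
        have e := M.self (apex j)
        have h0 : M.d (apex j) (apex i) ≠ 0 := fun h => hji (M.eq0 _ _ h)
        omega
      have z1 : ang i' (apex i) (apex j) = 0 := R.ang_zero i' _ _ hvv hne s2
      have z2 : ang i' (apex i) (rot i ^ k • apex j) = 0 := R.ang_zero i' _ _ hvv hom.1 s3
      refine ⟨hne, fun hdl => hom.2 ?_⟩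
      have z3 : ang i' (apex j) (rot i ^ k • apex j) = 0 := by
        have t := R.ang_tri i' (apex j) (apex i) (rot i ^ k • apex j) hne hvv hom.1
        have y := R.ang_symm i' (apex j) (apex i) hne hvv
        omega
      exact dl_congr R (hx i') hne hom.1 z3 hdl
    · -- `i'` after `i`
      obtain ⟨b1, b2, b3⟩ := far R h1 h2.1 hi' hc
      refine ⟨_, b1, by rw [b2, hdist], ?_⟩
      set φ : J := rot i ^ (-k) • i' with hφ
      have hφi : φ ≠ i := by
        intro h
        apply hii
        have : rot i ^ k • φ = i' := by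
          rw [hφ, smul_smul, ← zpow_add]
          simp
        rw [← this, h, fixj R]
      have hφv : apex i ≠ apex φ := fun h => hφi (R.inj h).symm
      have hφj : apex j ≠ apex φ := by
        intro h
        apply hom.1
        have : rot i ^ k • φ = i' := by
          rw [hφ, smul_smul, ← zpow_add]
          simp
        rw [← this, ← R.eqv, h]
      -- `v` is between `x` and `u`, `φ u`
      have s1 : M.Sep x (apex i) (apex i') := (sep_right h2 hi'.1 hc).1
      have s2 : M.Sep x (apex i) (apex φ) := (sep_right h1 b1.1 (by omega)).1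
      have z1 : ang i' (apex i) x = 0 := R.ang_zero i' _ _ hvv (hx i') (sep_symm s1)
      have z2 : ang φ (apex i) x = 0 := R.ang_zero φ _ _ hφv (hx φ) (sep_symm s2)
      -- the angles coincide
      have key : ∀ m : ℤ, ang i' x (rot i' ^ m • rot i ^ k • apex j) =
          ang φ x (rot φ ^ m • apex j) := by
        intro m
        have hw1 : rot i' ^ m • rot i ^ k • apex j ≠ apex i' := ne_smul R hom.1 m
        have hw2 : rot φ ^ m • apex j ≠ apex φ := ne_smul R hφj m
        have e1 : ang i' x (rot i' ^ m • rot i ^ k • apex j) =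
            ang i' (apex i) (rot i' ^ m • rot i ^ k • apex j) := by
          have t1 := R.ang_tri i' x (apex i) _ (hx i') hvv hw1
          have t2 := R.ang_tri i' (apex i) x _ hvv (hx i') hw1
          have y := R.ang_symm i' x (apex i) (hx i') hvv
          omega
        have e2 : ang φ x (rot φ ^ m • apex j) = ang φ (apex i) (rot φ ^ m • apex j) := by
          have t1 := R.ang_tri φ x (apex i) _ (hx φ) hφv hw2
          have t2 := R.ang_tri φ (apex i) x _ hφv (hx φ) hw2
          have y := R.ang_symm φ x (apex i) (hx φ) hφv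
          omega
        rw [e1, e2, ← R.ang_eqv (rot i ^ (-k)) i' _ _ hvv hw1, fixv R, ← hφ]
        congr 1
        have hr : rot φ = rot i ^ (-k) * rot i' * (rot i ^ (-k))⁻¹ := R.rot_conj _ _
        rw [hr, conj_zpow, smul_smul, smul_smul]
        congr 1
        rw [zpow_neg, inv_inv]
      refine ⟨hφj, fun hdl => hom.2 ⟨hom.1, fun m => ?_⟩⟩
      have k0 := key 0
      rw [zpow_zero, one_smul, zpow_zero, one_smul] at k0
      rw [key m, k0]
      exact hdl.2 m

/-- (e) generation. -/
theorem gen {x : V} (hx : ∀ j, x ≠ apex j) : ∀ (n s b : ℕ) (j : J), M.d x (apex j) = n →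
    (spd M apex x (apex j)).card = s → (bad M apex rot ang x (apex j)).card = b →
    rot j ∈ Subgroup.closure (rot '' {j | InF apex rot ang x j}) := by
  intro n
  induction n using Nat.strong_induction_on with | _ n ihn =>
  intro s
  induction s using Nat.strong_induction_on with | _ s ihs =>
  intro b
  induction b using Nat.strong_induction_on with | _ b ihb =>
  intro j hn hs hb
  by_cases hF : InF apex rot ang x j
  · exact Subgroup.subset_closure ⟨j, hF, rfl⟩
  have hF' := hF
  unfold InF at hF'
  push Not at hF'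
  obtain ⟨i, hij, hi⟩ := hF'
  have hji : apex j ≠ apex i := fun h => hij (R.inj h).symm
  have hom : Om apex rot ang x i (apex j) := ⟨hji, hi⟩
  have ha := om_ang R (hx i) hom
  have big := R.big
  have hsep : M.Sep x (apex i) (apex j) := R.ang_sep i x (apex j) (hx i) hji (by omega)
  have hbtw := hsep.1
  unfold GMet.Btw at hbtw
  have h0 : M.d (apex i) (apex j) ≠ 0 := fun h => hji (M.eq0 _ _ h).symm
  have hgi : rot i ∈ Subgroup.closure (rot '' {j | InF apex rot ang x j}) :=
    ihn (M.d x (apex i)) (by omega) _ _ i rfl rfl rfl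
  obtain ⟨k, hk⟩ := exists_dl R (hx i) hji
  have hk0 : k ≠ 0 := by
    rintro rfl
    apply hi
    simpa using hk
  have hap : apex (rot i ^ k • j) = rot i ^ k • apex j := (R.eqv _ _).symm
  -- it suffices to treat `w'`
  suffices hw : rot (rot i ^ k • j) ∈ Subgroup.closure (rot '' {j | InF apex rot ang x j}) by
    rw [R.rot_conj] at hw
    have h1 := (Subgroup.closure (rot '' {j | InF apex rot ang x j})).zpow_mem hgi k
    have h2 := Subgroup.mul_mem _ (Subgroup.mul_mem _ (Subgroup.inv_mem _ h1) hw) h1
    have e : (rot i ^ k)⁻¹ * (rot i ^ k * rot j * (rot i ^ k)⁻¹) * rot i ^ k = rot j := by group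
    rwa [e] at h2
  have hdd : M.d (apex i) (rot i ^ k • apex j) = M.d (apex i) (apex j) := by
    conv_lhs => rw [← fixv R i k]
    exact R.iso _ _ _
  have htri := M.tri x (apex i) (rot i ^ k • apex j)
  by_cases hlt : M.d x (rot i ^ k • apex j) < M.d x (apex j)
  · exact ihn (M.d x (rot i ^ k • apex j)) (by omega) _ _ _ (by rw [hap]) rfl rfl
  have heq : M.d x (rot i ^ k • apex j) = M.d x (apex j) := by omega
  have hb2 : M.Btw x (apex i) (rot i ^ k • apex j) := by
    unfold GMet.Btw
    omega
  have hsub := spd_sub R hsep hb2 heq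
  by_cases hc : M.Sep x (apex i) (rot i ^ k • apex j)
  · have hbs := bad_sub R hx hij hsep hc heq hk hom
    have hcard := Finset.card_lt_card hbs
    have hcard2 := Finset.card_le_card hsub
    rcases hcard2.lt_or_eq with h | h
    · exact ihs _ (by rw [← hs]; exact h) _ _ (by rw [hap, heq, hn]) (by rw [hap]) rfl
    · exact ihb _ (by rw [← hb]; exact hcard) _ (by rw [hap, heq, hn]) (by rw [hap, h, hs])
        (by rw [hap])
  · have hss : spd M apex x (rot i ^ k • apex j) ⊂ spd M apex x (apex j) := by
      rw [Finset.ssubset_iff_of_subset hsub]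
      refine ⟨M.d x (apex i), ?_, ?_⟩
      · rw [mem_spd]
        exact ⟨by omega, i, hsep, rfl⟩
      · rw [mem_spd]
        rintro ⟨_, i', hi', hd'⟩
        have : apex i = apex i' := hi'.2 _ hb2 hd'.symm
        rw [← this] at hi'
        exact hc hi'
    have hcard := Finset.card_lt_card hss
    exact ihs _ (by rw [← hs]; exact hcard) _ _ (by rw [hap, heq, hn]) (by rw [hap]) rfl

end

/-- The rotation theorem. -/
theorem rt : RTStatement := by
  intro G V J _ _ _ M apex rot ang l θ R
  exact rotRed_of_gen R (fun x hx j => gen R hx _ _ _ j rfl rfl rfl)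

end Pool.Agent.Lib.MP_7f190d_al.H3
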