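import Pool.Agent.Lib.MP_7f190d_al.H3.Sep

/-!
# MP_7f190d_al, module RT, part 2: fundamental domains of the rotations

Author: helper3.
-/

set_option autoImplicit false

namespace Pool.Agent.Lib.MP_7f190d_al.H3

variable {G V J : Type} [Group G] [MulAction G V] [MulAction G J] {M : GMet V}
  {apex : J → V} {rot : J → G} {ang : J → V → V → ℕ} {l θ : ℕ}

/-- The fundamental domain of the rotations about `apex j`, seen from `x`. -/
def Dl (apex : J → V) (rot : J → G) (ang : J → V → V → ℕ) (x : V) (j : J) (z : V) : Prop :=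
  z ≠ apex j ∧ ∀ k : ℤ, (0 < k → ang j x z < ang j x (rot j ^ k • z)) ∧
    (k < 0 → ang j x z ≤ ang j x (rot j ^ k • z))

/-- The complement of the fundamental domain. -/
def Om (apex : J → V) (rot : J → G) (ang : J → V → V → ℕ) (x : V) (j : J) (z : V) : Prop :=
  z ≠ apex j ∧ ¬ Dl apex rot ang x j z

section

variable (R : RotSys G V J M apex rot ang l θ)

include R

theorem fixj (j : J) (k : ℤ) : rot j ^ k • j = j := by
  have h : rot j ∈ MulAction.stabilizer G j := R.rot_fix j
  exact (MulAction.stabilizer G j).zpow_mem h k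

theorem fixv (j : J) (k : ℤ) : rot j ^ k • apex j = apex j := by
  rw [R.eqv, fixj R]

theorem ne_smul {j : J} {z : V} (hz : z ≠ apex j) (k : ℤ) : rot j ^ k • z ≠ apex j := by
  intro h
  apply hz
  have h2 : rot j ^ (-k) • (rot j ^ k • z) = rot j ^ (-k) • apex j := by rw [h]
  rw [fixv R, smul_smul, ← zpow_add] at h2
  simpa using h2

theorem ang_rotk {j : J} {w z : V} (hw : w ≠ apex j) (hz : z ≠ apex j) (k : ℤ) :
    ang j (rot j ^ k • w) (rot j ^ k • z) = ang j w z := by
  have := R.ang_eqv (rot j ^ k) j w z hw hz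
  rwa [fixj R] at this

theorem ang_congr {j : J} {x w z : V} (hx : x ≠ apex j) (hw : w ≠ apex j) (hz : z ≠ apex j)
    (h : ang j w z = 0) : ang j x w = ang j x z := by
  have h1 := R.ang_tri j x w z hx hw hz
  have h2 := R.ang_tri j x z w hx hz hw
  have h3 := R.ang_symm j w z hw hz
  omega

theorem l_pos : 1 ≤ l := by
  have := R.big
  omega

theorem ang_lower {j : J} {x z : V} (hx : x ≠ apex j) (hz : z ≠ apex j) (k : ℤ) :
    l * k.natAbs ≤ ang j x z + ang j x (rot j ^ k • z) := by
  have h1 := R.ang_rot j z k hz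
  have h2 := R.ang_tri j z x (rot j ^ k • z) hz hx (ne_smul R hz k)
  have h3 := R.ang_symm j z x hz hx
  omega

/-- (a) every orbit meets the fundamental domain. -/
theorem exists_dl {x : V} {j : J} (hx : x ≠ apex j) {z : V} (hz : z ≠ apex j) :
    ∃ k : ℤ, Dl apex rot ang x j (rot j ^ k • z) := by
  obtain ⟨k0, hk0⟩ : ∃ k0 : ℤ, ∀ k : ℤ, ang j x (rot j ^ k0 • z) ≤ ang j x (rot j ^ k • z) := by
    obtain ⟨k0, _, h⟩ := WellFounded.has_min (measure fun k : ℤ => ang j x (rot j ^ k • z)).wf
      Set.univ ⟨0, trivial⟩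
    exact ⟨k0, fun k => not_lt.mp (h k trivial)⟩
  obtain ⟨k1, h1, h2⟩ := Int.exists_greatest_of_bdd
    (P := fun k : ℤ => ang j x (rot j ^ k • z) = ang j x (rot j ^ k0 • z))
    ⟨((ang j x z + ang j x (rot j ^ k0 • z) : ℕ) : ℤ), by
      intro k hk
      have h := ang_lower R hx hz k
      have hl := l_pos R
      have h3 : k.natAbs ≤ l * k.natAbs := Nat.le_mul_of_pos_left _ hl
      have hk' : ang j x (rot j ^ k • z) = ang j x (rot j ^ k0 • z) := hk
      have h4 : k ≤ (k.natAbs : ℤ) := Int.le_natAbs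
      have h5 : k.natAbs ≤ ang j x z + ang j x (rot j ^ k0 • z) := by omega
      exact_mod_cast h4.trans (by exact_mod_cast h5)⟩ ⟨k0, rfl⟩
  refine ⟨k1, ne_smul R hz k1, ?_⟩
  intro k
  have e : rot j ^ k • rot j ^ k1 • z = rot j ^ (k + k1) • z := by
    rw [smul_smul, ← zpow_add]
  rw [e]
  constructor
  · intro hk
    refine lt_of_le_of_ne (h1 ▸ hk0 _) ?_
    intro h
    have := h2 (k + k1) (by rw [← h, h1])
    omega
  · intro _
    exact h1 ▸ hk0 _

omit R in
/-- (b) uniqueness. -/
theorem dl_unique {x : V} {j : J} {z : V} {k : ℤ} (h1 : Dl apex rot ang x j z)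
    (h2 : Dl apex rot ang x j (rot j ^ k • z)) : k = 0 := by
  have e : rot j ^ (-k) • rot j ^ k • z = z := by
    rw [smul_smul, ← zpow_add]
    simp
  rcases lt_trichotomy k 0 with hk | hk | hk
  · have a := (h1.2 k).2 hk
    have b := (h2.2 (-k)).1 (by omega)
    rw [e] at b
    omega
  · exact hk
  · have a := (h1.2 k).1 hk
    have b := (h2.2 (-k)).2 (by omega)
    rw [e] at b
    omega

/-- (c) the points outside the fundamental domain have a large angle. -/
theorem om_ang {x : V} {j : J} (hx : x ≠ apex j) {z : V} (h : Om apex rot ang x j z) :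
    l ≤ 2 * ang j x z := by
  obtain ⟨hz, h⟩ := h
  unfold Dl at h
  push Not at h
  obtain ⟨k, hk⟩ := h hz
  have h1 := ang_lower R hx hz k
  by_cases hk0 : k = 0
  · exfalso
    subst hk0
    have := hk (by intro h0; omega)
    omega
  · have h3 : l ≤ l * k.natAbs := Nat.le_mul_of_pos_right _ (Int.natAbs_pos.mpr hk0)
    by_cases hk1 : 0 < k ∧ ang j x (rot j ^ k • z) ≤ ang j x z
    · omega
    · have := hk (by
        intro h0
        by_contra hc
        exact hk1 ⟨h0, by omega⟩)
      omega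

/-- (d) -/
theorem dl_self {x : V} {j : J} (hx : x ≠ apex j) : Dl apex rot ang x j x := by
  refine ⟨hx, fun k => ?_⟩
  have h1 := R.ang_rot j x k hx
  have h2 := R.ang_self j x hx
  have hl := l_pos R
  constructor
  · intro hk
    have h3 : l ≤ l * k.natAbs := Nat.le_mul_of_pos_right _ (by omega)
    omega
  · intro _
    omega

/-- Points in the same direction have the same angles with `x` under all rotations. -/
theorem ang_pow_congr {x : V} {j : J} (hx : x ≠ apex j) {w z : V} (hw : w ≠ apex j)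
    (hz : z ≠ apex j) (h : ang j w z = 0) (k : ℤ) :
    ang j x (rot j ^ k • w) = ang j x (rot j ^ k • z) :=
  ang_congr R hx (ne_smul R hw k) (ne_smul R hz k) (by rw [ang_rotk R hw hz, h])

theorem dl_congr {x : V} {j : J} (hx : x ≠ apex j) {w z : V} (hw : w ≠ apex j)
    (hz : z ≠ apex j) (h : ang j w z = 0) (hd : Dl apex rot ang x j w) :
    Dl apex rot ang x j z := by
  refine ⟨hz, fun k => ?_⟩
  have h0 := ang_congr R hx hw hz h
  have h1 := ang_pow_congr R hx hw hz h k
  rw [← h0, ← h1]
  exact hd.2 k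

/-- (PP) -/
theorem pp {x : V} (hx : ∀ j, x ≠ apex j) {i j : J} (hij : i ≠ j)
    (hi : Dl apex rot ang x j (apex i)) (hj : Dl apex rot ang x i (apex j)) {z : V}
    (hz : Om apex rot ang x i z) : Dl apex rot ang x j z := by
  have hzi : z ≠ apex i := hz.1
  have hzj : z ≠ apex j := by
    intro h
    subst h
    exact hz.2 hj
  have hv : apex i ≠ apex j := fun h => hij (R.inj h)
  by_contra hcon
  have hz' : Om apex rot ang x j z := ⟨hzj, hcon⟩
  have a1 := om_ang R (hx i) hz
  have a2 := om_ang R (hx j) hz'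
  have big := R.big
  by_cases c1 : θ < ang i x (apex j)
  · have s1 : M.Sep x (apex i) (apex j) := R.ang_sep i x (apex j) (hx i) hv.symm c1
    have z1 : ang j (apex i) x = 0 := R.ang_zero j (apex i) x hv (hx j) (sep_symm s1)
    have t1 := R.ang_tri j x (apex i) z (hx j) hv hzj
    have y1 := R.ang_symm j x (apex i) (hx j) hv
    have s2 : M.Sep (apex i) (apex j) z := R.ang_sep j (apex i) z hv hzj (by omega)
    have z2 : ang i (apex j) z = 0 := R.ang_zero i (apex j) z hv.symm hzi s2
    exact hz.2 (dl_congr R (hx i) hv.symm hzi z2 hj)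
  by_cases c2 : θ < ang j x (apex i)
  · have s1 : M.Sep x (apex j) (apex i) := R.ang_sep j x (apex i) (hx j) hv c2
    have z1 : ang i (apex j) x = 0 := R.ang_zero i (apex j) x hv.symm (hx i) (sep_symm s1)
    have t1 := R.ang_tri i x (apex j) z (hx i) hv.symm hzi
    have y1 := R.ang_symm i x (apex j) (hx i) hv.symm
    have s2 : M.Sep (apex j) (apex i) z := R.ang_sep i (apex j) z hv.symm hzi (by omega)
    have z2 : ang j (apex i) z = 0 := R.ang_zero j (apex i) z hv hzj s2
    exact hz'.2 (dl_congr R (hx j) hv hzj z2 hi)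
  · have t1 := R.ang_tri i x (apex j) z (hx i) hv.symm hzi
    have s2 : M.Sep (apex j) (apex i) z := R.ang_sep i (apex j) z hv.symm hzi (by omega)
    have z2 : ang j (apex i) z = 0 := R.ang_zero j (apex i) z hv hzj s2
    have t2 := R.ang_tri j x (apex i) z (hx j) hv hzj
    omega

end

/-- The apexes which lie in all fundamental domains. -/
def InF (apex : J → V) (rot : J → G) (ang : J → V → V → ℕ) (x : V) (j : J) : Prop :=
  ∀ i, i ≠ j → Dl apex rot ang x i (apex j)

/-- Words in the rotations about the apexes of `F`. -/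
def Wd (rot : J → G) (F : J → Prop) : ℕ → G → Prop
  | 0, g => g = 1
  | m + 1, g => ∃ j, F j ∧ ∃ k : ℤ, Wd rot F m (rot j ^ k * g)

theorem wd_of_mem (F : J → Prop) {g : G} (hg : g ∈ Subgroup.closure (rot '' {j | F j})) :
    ∃ m, Wd rot F m g := by
  induction hg using Subgroup.closure_induction_left with
  | one => exact ⟨0, rfl⟩
  | mul_left x hx y hy ih =>
    obtain ⟨j, hj, rfl⟩ := hx
    obtain ⟨m, hm⟩ := ih
    exact ⟨m + 1, j, hj, -1, by simpa using hm⟩
  | inv_mul_cancel x hx y hy ih =>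
    obtain ⟨j, hj, rfl⟩ := hx
    obtain ⟨m, hm⟩ := ih
    exact ⟨m + 1, j, hj, 1, by simpa using hm⟩

/-- (f) the first syllable of a shortest word. -/
theorem wd_min (R : RotSys G V J M apex rot ang l θ) {x : V} (hx : ∀ j, x ≠ apex j) :
    ∀ (m : ℕ) (g : G), Wd rot (InF apex rot ang x) (m + 1) g →
      (∀ m' ≤ m, ¬ Wd rot (InF apex rot ang x) m' g) →
      ∃ j, InF apex rot ang x j ∧ (∃ k : ℤ, Wd rot (InF apex rot ang x) m (rot j ^ k * g)) ∧
        Om apex rot ang x j (g • x) := by
  intro m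
  induction m with
  | zero =>
    intro g hg hmin
    obtain ⟨j, hj, k, hk⟩ := hg
    refine ⟨j, hj, ⟨k, hk⟩, ?_⟩
    have hk' : rot j ^ k * g = 1 := hk
    have hg : g = rot j ^ (-k) := by
      rw [zpow_neg, ← inv_eq_of_mul_eq_one_right hk']
    have hk0 : k ≠ 0 := by
      rintro rfl
      apply hmin 0 le_rfl
      change g = 1
      simpa using hg
    rw [hg]
    refine ⟨ne_smul R (hx j) _, fun h => ?_⟩
    have := dl_unique (dl_self R (hx j)) h
    omega
  | succ m ih =>
    intro g hg hmin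
    obtain ⟨j, hj, k, hk⟩ := hg
    have hk0 : k ≠ 0 := by
      rintro rfl
      apply hmin (m + 1) le_rfl
      simpa using hk
    obtain ⟨j', hj', ⟨k', hk'⟩, hom⟩ := ih (rot j ^ k * g) hk (by
      intro m' hm' hw
      exact hmin (m' + 1) (by omega) ⟨j, hj, k, hw⟩)
    have hjj : j' ≠ j := by
      rintro rfl
      apply hmin (m + 1) le_rfl
      refine ⟨j', hj, k' + k, ?_⟩
      rw [zpow_add, mul_assoc]
      exact hk'
    have hd : Dl apex rot ang x j ((rot j ^ k * g) • x) :=
      pp R hx hjj (hj' j hjj.symm) (hj j' hjj) hom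
    refine ⟨j, hj, ⟨k, hk⟩, ?_⟩
    have e : g • x = rot j ^ (-k) • ((rot j ^ k * g) • x) := by
      rw [smul_smul, ← mul_assoc, ← zpow_add]
      simp
    rw [e]
    refine ⟨ne_smul R hd.1 _, fun h => ?_⟩
    have := dl_unique hd h
    omega

/-- The rotation theorem, given generation. -/
theorem rotRed_of_gen (R : RotSys G V J M apex rot ang l θ)
    (gen : ∀ x : V, (∀ j, x ≠ apex j) → ∀ j,
      rot j ∈ Subgroup.closure (rot '' {j | InF apex rot ang x j})) :
    RotRed apex rot ang l := by
  intro x hx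
  classical
  refine ⟨fun g => sInf {m | Wd rot (InF apex rot ang x) m g}, ?_⟩
  intro g hg hg1
  have hg' : g ∈ Subgroup.closure (rot '' {j | InF apex rot ang x j}) := by
    have : RotSub rot ≤ Subgroup.closure (rot '' {j | InF apex rot ang x j}) := by
      rw [RotSub, Subgroup.closure_le]
      rintro _ ⟨j, rfl⟩
      exact gen x hx j
    exact this hg
  have hne : {m | Wd rot (InF apex rot ang x) m g}.Nonempty := wd_of_mem _ hg'
  have hmem := Nat.sInf_mem hne
  have hlt : ∀ m' < sInf {m | Wd rot (InF apex rot ang x) m g},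
      ¬ Wd rot (InF apex rot ang x) m' g := by
    intro m' hm' hw
    exact absurd (Nat.sInf_le (s := {m | Wd rot (InF apex rot ang x) m g}) hw) (by omega)
  generalize hm : sInf {m | Wd rot (InF apex rot ang x) m g} = m at hmem hlt
  rcases m with _ | m
  · exact absurd hmem hg1
  obtain ⟨j, hj, ⟨k, hk⟩, hom⟩ := wd_min R hx m g hmem (fun m' hm' => hlt m' (by omega))
  refine ⟨j, k, om_ang R (hx j) hom, ?_⟩
  change sInf {m | Wd rot (InF apex rot ang x) m (rot j ^ k * g)} <
    sInf {m | Wd rot (InF apex rot ang x) m g}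
  rw [hm]
  exact Nat.lt_succ_of_le (Nat.sInf_le hk)

end Pool.Agent.Lib.MP_7f190d_al.H3
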