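import Pool.Agent.Lib.MP_7f190d_al.Interfaces

/-!
# MP_7f190d_al, module RT, part 1: calculus of separating points

Author: helper3.
-/

set_option autoImplicit false

namespace Pool.Agent.Lib.MP_7f190d_al.H3

variable {V : Type} {M : GMet V}

/-- `Sep` is symmetric. -/
theorem sep_symm {x v z : V} (h : M.Sep x v z) : M.Sep z v x := by
  obtain ⟨h1, h2⟩ := h
  refine ⟨?_, ?_⟩
  · unfold GMet.Btw at *
    have a := M.symm z v
    have b := M.symm v x
    have c := M.symm z x
    omega
  · intro u hu1 hu2
    apply h2 u
    · unfold GMet.Btw at *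
      have a := M.symm z u
      have b := M.symm u x
      have c := M.symm z x
      omega
    · unfold GMet.Btw at *
      have a := M.symm z u
      have b := M.symm u x
      have c := M.symm z x
      have a' := M.symm z v
      have b' := M.symm v x
      omega

/-- The endpoint separates. -/
theorem sep_end (x v : V) : M.Sep x v v := by
  refine ⟨?_, ?_⟩
  · unfold GMet.Btw
    have := M.self v
    omega
  · intro u hu1 hu2
    apply M.eq0
    unfold GMet.Btw at *
    omega

/-- `Sep x v w` and `Sep v u w` imply `Sep x u w`; also `v` is between `x` and `u`. -/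
theorem sep_trans {x v u w : V} (h : M.Sep x v w) (h' : M.Sep v u w) :
    M.Sep x u w ∧ M.Btw x v u := by
  obtain ⟨h1, h2⟩ := h
  obtain ⟨k1, k2⟩ := h'
  have t1 := M.tri x v u
  have t2 := M.tri x u w
  unfold GMet.Btw at h1 k1
  refine ⟨⟨?_, ?_⟩, ?_⟩
  · unfold GMet.Btw
    omega
  · intro u' a b
    unfold GMet.Btw at a
    obtain ⟨v', e1, e2⟩ := M.geod x u' (M.d x v) (by omega)
    have t3 := M.tri v' u' w
    have t4 := M.tri x v' w
    have hv : v' = v := by
      apply h2 v'
      · unfold GMet.Btw
        omega
      · exact e1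
    subst hv
    apply k2 u'
    · unfold GMet.Btw
      omega
    · omega
  · unfold GMet.Btw
    omega

/-- `Sep x u v` and `Sep x v w` imply `Sep x u w`. -/
theorem sep_trans' {x v u w : V} (h : M.Sep x u v) (h' : M.Sep x v w) : M.Sep x u w :=
  sep_symm (sep_trans (sep_symm h') (sep_symm h)).1

/-- If `v` separates `x` and `w` and `u`, on a geodesic from `x` to `w`, is closer to `x`, then `v`
separates `u` and `w`, and `u` is between `x` and `v`. -/
theorem sep_left {x v u w : V} (h : M.Sep x v w) (hu : M.Btw x u w) (hd : M.d x u ≤ M.d x v) :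
    M.Sep u v w ∧ M.Btw x u v := by
  obtain ⟨h1, h2⟩ := h
  unfold GMet.Btw at h1 hu
  obtain ⟨v', e1, e2⟩ := M.geod u w (M.d x v - M.d x u) (by omega)
  have t1 := M.tri x u v'
  have t2 := M.tri x v' w
  have hv : v' = v := by
    apply h2 v'
    · unfold GMet.Btw
      omega
    · omega
  subst hv
  refine ⟨⟨?_, ?_⟩, ?_⟩
  · unfold GMet.Btw
    omega
  · intro v'' a b
    unfold GMet.Btw at a
    have t3 := M.tri x u v''
    have t4 := M.tri x v'' w
    apply h2 v''
    · unfold GMet.Btw
      omega
    · omega
  · unfold GMet.Btw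
    omega

/-- If `v` separates `x` and `w` and `u`, on a geodesic from `x` to `w`, is farther from `x`, then
`v` separates `x` and `u`. -/
theorem sep_right {x v u w : V} (h : M.Sep x v w) (hu : M.Btw x u w) (hd : M.d x v ≤ M.d x u) :
    M.Sep x v u ∧ M.Btw v u w := by
  have h1 := h.1
  have h' := sep_symm h
  have hu' : M.Btw w u x := by
    unfold GMet.Btw at *
    have a := M.symm w u
    have b := M.symm u x
    have c := M.symm w x
    omega
  have hd' : M.d w u ≤ M.d w v := by
    unfold GMet.Btw at *
    have a := M.symm w u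
    have b := M.symm u x
    have c := M.symm w x
    have a' := M.symm w v
    have b' := M.symm v x
    omega
  obtain ⟨k1, k2⟩ := sep_left h' hu' hd'
  refine ⟨sep_symm k1, ?_⟩
  unfold GMet.Btw at *
  have a := M.symm w u
  have b := M.symm u v
  have c := M.symm w v
  omega

/-- Isometries preserve `Sep`. -/
theorem sep_smul {G : Type} [Group G] [MulAction G V] (hG : Iso G M) (g : G) {x v w : V}
    (h : M.Sep x v w) : M.Sep (g • x) (g • v) (g • w) := by
  obtain ⟨h1, h2⟩ := h
  refine ⟨?_, ?_⟩
  · unfold GMet.Btw at *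
    rw [hG, hG, hG]
    exact h1
  · intro u hu1 hu2
    have key : g⁻¹ • u = v := by
      apply h2
      · unfold GMet.Btw at *
        have e1 : M.d x (g⁻¹ • u) = M.d (g • x) u := by
          rw [← hG g x, smul_inv_smul]
        have e2 : M.d (g⁻¹ • u) w = M.d u (g • w) := by
          rw [← hG g, smul_inv_smul]
        rw [e1, e2, hu1, hG]
      · rw [← hG g x, smul_inv_smul, hu2, hG]
    rw [← key, smul_inv_smul]

end Pool.Agent.Lib.MP_7f190d_al.H3
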